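import Pool.Agent.helper10.XT.TUG
import Pool.Agent.helper18.XT.CLE
import Pool.Agent.helper18.XT.LMT
import Pool.Agent.helper22.XT.CTR
import Pool.Agent.helper27.XT.FNM
import Pool.Agent.helper27.XT.HOS
import Pool.Agent.helper27.XT.HVY
import Pool.Agent.helper27.XT.MEQ
import Pool.Agent.helper27.XT.PRM
import Pool.Agent.helper27.XT.STP
import Pool.Agent.helper27.XT.WAA
import Pool.Agent.helper27.XT.WCL
import Pool.Agent.helper27.XT.WGE
import Pool.Agent.helper27.XT.WNM
import Pool.Agent.helper30.XT.AVZ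
import Pool.Agent.helper40.XT.BLK
import Pool.Agent.helper41.XT.SEL
import Pool.Agent.helper41.XT.TGF
import Pool.Agent.helper45.XT.ARI
import Pool.Agent.helper46.XT.CFB
import Pool.Agent.helper49.XT.MBA
import Pool.Agent.helper49.XT.MCN
import Pool.Agent.helper56.XT.CUG
import Pool.Agent.helper56.XT.CYG
import Pool.Agent.helper56.XT.WGR
import Pool.Agent.helper62.XT.GEO
import Pool.Agent.helper62.XT.RBC
import Pool.Agent.helper62.XT.TUA
import Pool.Agent.helper62.XT.TUB
import Pool.Agent.helper62.XT.TUC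
import Pool.Agent.helper67.XT.EXF
import Pool.Agent.helper68.XT.DNS
import Pool.Agent.helper72.XT.ADM
import Pool.Agent.helper72.XT.DGX
import Pool.Agent.helper72.XT.DUA
import Pool.Agent.helper72.XT.GAD
import Pool.Agent.helper72.XT.GFT
import Pool.Agent.helper72.XT.MMO
import Pool.Agent.helper72.XT.MXF
import Pool.Agent.helper72.XT.PHC
import Pool.Agent.helper8.XT.CLN
import Pool.Agent.helper8.XT.DIS
import Pool.Agent.helper82.XT.PCK
import Pool.Agent.helper83.XT.PRT
import Pool.Agent.helper83.XT.UPF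
import Pool.Agent.helper98.XT.NCO
import Pool.Agent.helper99.XT.QCC
import Pool.Agent.helper55.GL.All

/-!
# MP_51d945: assembly of the rows xt:* (hosts of girth 8)
-/

set_option autoImplicit false

namespace Pool.Agent.XT

open Finset SimpleGraph

theorem a_MXF : MXF_stmt := MXF GAD
theorem a_FNM : FNM_stmt := FNM SEL MEQ
theorem a_DNS : DNS_stmt := DNS PCK a_FNM CFB GAD
theorem a_CLE : CLE_stmt := CLE a_MXF AVZ GAD
theorem a_DIS : DIS_stmt := DIS GEO
theorem a_CTR : CTR_stmt := CTR GEO a_DIS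
theorem a_TUG : TUG_stmt := TUG GEO a_DIS
theorem a_TUC : TUC_stmt := TUC GEO
theorem a_TUA : TUA_stmt := TUA GEO a_CTR a_TUG
theorem a_TUB : TUB_stmt := TUB GEO a_CTR a_TUG
theorem a_RBC : RBC_stmt := RBC PHC a_TUC a_TUA a_TUB a_TUG a_MXF ARI GAD
theorem a_LMT : LMT_stmt := LMT a_CLE a_RBC a_DNS ARI
theorem a_PRT : PRT_stmt := PRT a_LMT TGF GFT CLN DGX a_FNM DUA ARI MMO
theorem a_ADM : ADM_stmt := ADM MMO DUA
theorem a_BLK : BLK_stmt := BLK a_ADM
theorem a_HVY : HVY_stmt := HVY a_BLK STP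
theorem a_UPF : UPF_stmt := UPF a_PRT a_HVY CLN a_ADM DUA
theorem a_WGE : WGE_stmt := WGE WAA
theorem a_WNM : WNM_stmt := WNM MEQ WAA WCL WGR
theorem a_HOS : HOS_stmt := HOS a_WNM a_WGE PRM
theorem a_QCC : QCC_stmt := QCC EXF CYG a_HOS GL.HST GL.SCL
theorem a_NCO : NCO_stmt := NCO MBA a_HOS CYG GL.HST GL.SCL

end Pool.Agent.XT
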