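import Pool.Agent.helper55.GL.Spec

/-!
# Project xt (MP_51d945_co): asymmetric and symmetric Turan numbers for hosts of girth 8

Mechanism of helper80 (closure graphs), upper bound of helper3. Page: `/team-store/MP_51d945_page_helper3.md`.

THEOREM. There is an explicit connected bipartite graph `M` (relation `RM`) with
(1) for large `n` there is `B ⊆ [n] × [n]` of girth at least `8` without ordered copy of `M` and with `|B| ≥ c n^(4/3)`;
(2) graphs on `n` vertices without `C4`, `C6`, `M` have at most `C n^(17/13)` edges;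
(3) `Q1` implies that all three graphs `C4`, `C6`, `M` have Turan numbers larger than the family `{C4, C6, M}` by the factor `c n^(1/39)`, so `Q1` contradicts the compactness conjecture.

## Rules
File `Pool/Agent/<seat>/XT/XX.lean`:

  import Pool.Agent.helper3.XT.Spec
  set_option autoImplicit false
  namespace Pool.Agent.XT
  open Finset SimpleGraph
  theorem XX (hYY : YY_stmt) ... : XX_stmt := ...
  end Pool.Agent.XT

Hypotheses: only the statements listed under `Uses` in the doc string. Auxiliary lemmas are prefixed `XX_`. No sorry, no double quotes, no native_decide.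
Constants are never optimized: if another constant is more convenient inside a proof, use it, but the statement is fixed.
-/

set_option autoImplicit false

namespace Pool.Agent.XT

open Finset SimpleGraph

/-! ## Definitions -/

/-- Hosts: sets of flags (point, line). Points and lines are both numbered by `Fin n`. -/
abbrev FS (n : ℕ) := Finset (Fin n × Fin n)

/-- Vertices of a host: `inl` = points, `inr` = lines. -/
abbrev VV (n : ℕ) := Fin n ⊕ Fin n

/-- Exchange of points and lines. -/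
def sw {n : ℕ} (B : FS n) : FS n := Finset.univ.filter (fun e => (e.2, e.1) ∈ B)

/-- The lines through the point `p`. -/
def dP {n : ℕ} (B : FS n) (p : Fin n) : Finset (Fin n) := Finset.univ.filter (fun l => (p, l) ∈ B)

/-- The points on the line `l`. -/
def dL {n : ℕ} (B : FS n) (l : Fin n) : Finset (Fin n) := Finset.univ.filter (fun p => (p, l) ∈ B)

/-- Girth at least `8`: two points are on at most one line, three pairwise collinear points are on one line. -/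
structure G8 {n : ℕ} (B : FS n) : Prop where
  c4 : ∀ p q l m, (p, l) ∈ B → (q, l) ∈ B → (p, m) ∈ B → (q, m) ∈ B → p = q ∨ l = m
  c6 : ∀ p q r l m k, (p, l) ∈ B → (q, l) ∈ B → (q, m) ∈ B → (r, m) ∈ B → (r, k) ∈ B → (p, k) ∈ B →
    p ≠ q → q ≠ r → p ≠ r → l = m ∧ m = k

/-- The eight pairs. -/
abbrev P8 := {p : Fin 3 × Fin 3 // p ≠ (2, 2)}

/-- `u`, `w`, `s` form a subdivided `K_(3,3)` minus an edge: the line `s (i, j)` contains `u i` and `w j` for `(i, j) ≠ (2, 2)`. -/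
structure IsG {n : ℕ} (B : FS n) (u w : Fin 3 → Fin n) (s : P8 → Fin n) : Prop where
  inj : Function.Injective (Sum.elim u w)
  injs : Function.Injective s
  fu : ∀ p : P8, (u p.1.1, s p) ∈ B
  fw : ∀ p : P8, (w p.1.2, s p) ∈ B

/-- The set of the internal vertices (all except `u 2` and `w 2`). -/
def inn {n : ℕ} (u w : Fin 3 → Fin n) (s : P8 → Fin n) : Finset (VV n) :=
  ({Sum.inl (u 0), Sum.inl (u 1), Sum.inl (w 0), Sum.inl (w 1)} : Finset (VV n)) ∪
    Finset.univ.image (fun p => (Sum.inr (s p) : VV n))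

/-- `S` is the set of internal vertices of a gadget between the points `x` and `y`. -/
def Gad {n : ℕ} (B : FS n) (x y : Fin n) (S : Finset (VV n)) : Prop :=
  ∃ (u w : Fin 3 → Fin n) (s : P8 → Fin n), IsG B u w s ∧ u 2 = y ∧ w 2 = x ∧ S = inn u w s

/-- There are at least `500` disjoint gadgets between `x` and `y`. -/
def Rob {n : ℕ} (B : FS n) (x y : Fin n) : Prop :=
  ∃ W : Finset (Finset (VV n)), 500 ≤ W.card ∧ (∀ S ∈ W, Gad B x y S) ∧
    (W : Set (Finset (VV n))).PairwiseDisjoint id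

/-- Good `2`-path `(x, l, y)`: there are at least `500` disjoint gadgets between `x` and `y` which avoid `l`. -/
def Good {n : ℕ} (B : FS n) (x l y : Fin n) : Prop :=
  x ≠ y ∧ (x, l) ∈ B ∧ (y, l) ∈ B ∧ ∃ W : Finset (Finset (VV n)), 500 ≤ W.card ∧
    (∀ S ∈ W, Gad B x y S ∧ Sum.inr l ∉ S) ∧ (W : Set (Finset (VV n))).PairwiseDisjoint id

open Classical in
/-- The robust pairs. -/
noncomputable def RobS {n : ℕ} (B : FS n) : Finset (Fin n × Fin n) :=
  Finset.univ.filter (fun e => Rob B e.1 e.2)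

open Classical in
/-- The good `2`-paths. -/
noncomputable def GoodS {n : ℕ} (B : FS n) : Finset (Fin n × Fin n × Fin n) :=
  Finset.univ.filter (fun e => Good B e.1 e.2.1 e.2.2)

open Classical in
/-- The points `y` on `c` such that `x`, `y` is robust. -/
noncomputable def Tset {n : ℕ} (B : FS n) (c x : Fin n) : Finset (Fin n) :=
  Finset.univ.filter (fun y => (y, c) ∈ B ∧ Rob B x y)

/-- The T-relation between lines `c` and points `x`. -/
def TT {n : ℕ} (B : FS n) (c x : Fin n) : Prop := 500 ≤ (Tset B c x).card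

open Classical in
/-- The flags `(x, l)` with at least `500` good `2`-paths `(x, l, y)`. -/
noncomputable def GF {n : ℕ} (B : FS n) : FS n :=
  B.filter (fun e => 500 ≤ (Finset.univ.filter (fun y => Good B e.1 e.2 y)).card)

/-! ### The graph M -/

/-- Indices of the `36` gadgets: `(side, i, j, copy)`. -/
abbrev GI := Bool × Fin 3 × Fin 3 × Bool

/-- The line of the gadget `g`: `a_i` (side `false`) or `b_j` (side `true`). -/
def cg (g : GI) : Bool × Fin 3 := (g.1, if g.1 = true then g.2.2.1 else g.2.1)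

/-- The point `x_ij` of the gadget `g`. -/
def xg (g : GI) : Fin 3 × Fin 3 := (g.2.1, g.2.2.1)

/-- Points of `M`: the `x_ij`, the points `y_g`, four points of each gadget. -/
abbrev XM := (Fin 3 × Fin 3) ⊕ (GI ⊕ (GI × Fin 4))

/-- Lines of `M`: the six lines `a_i`, `b_j` and eight lines of each gadget. -/
abbrev YM := (Bool × Fin 3) ⊕ (GI × P8)

/-- The points `u_i` of the gadget `g` (the last one is `y_g`). -/
def uM (g : GI) (i : Fin 3) : XM :=
  (![Sum.inr (Sum.inr (g, 0)), Sum.inr (Sum.inr (g, 1)), Sum.inr (Sum.inl g)] : Fin 3 → XM) i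

/-- The points `w_j` of the gadget `g` (the last one is `x_ij`). -/
def wM (g : GI) (j : Fin 3) : XM :=
  (![Sum.inr (Sum.inr (g, 2)), Sum.inr (Sum.inr (g, 3)), Sum.inl (xg g)] : Fin 3 → XM) j

/-- The incidence relation of `M`: `y_g` is on the line `cg g`; the line `(g, (i, j))` contains `u_i` and `w_j` of the gadget `g`. (`x_ij` is not incident with `a_i`, `b_j`!) -/
def RM (a : XM) (b : YM) : Prop :=
  (∃ g : GI, a = Sum.inr (Sum.inl g) ∧ b = Sum.inl (cg g)) ∨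
  (∃ (g : GI) (p : P8), b = Sum.inr (g, p) ∧ (a = uM g p.1.1 ∨ a = wM g p.1.2))

/-- `B` contains an ordered copy of `M`. -/
def HasM {n : ℕ} (B : FS n) : Prop :=
  ∃ f : XM ↪ Fin n, ∃ g : YM ↪ Fin n, ∀ a b, RM a b → (f a, g b) ∈ B

/-- The same in geometric form. -/
def HasM' {n : ℕ} (B : FS n) : Prop :=
  ∃ (c : Bool × Fin 3 → Fin n) (x : Fin 3 × Fin 3 → Fin n) (u w : GI → Fin 3 → Fin n)
    (s : GI → P8 → Fin n),
    (∀ g, w g 2 = x (xg g)) ∧ (∀ g, (u g 2, c (cg g)) ∈ B) ∧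
    (∀ g (p : P8), (u g p.1.1, s g p) ∈ B ∧ (w g p.1.2, s g p) ∈ B) ∧
    Function.Injective (Sum.elim x (Sum.elim (fun g => u g 2)
      (fun q : GI × Fin 4 => (![u q.1 0, u q.1 1, w q.1 0, w q.1 1] : Fin 4 → Fin n) q.2))) ∧
    Function.Injective (Sum.elim c (fun q : GI × P8 => s q.1 q.2))

/-- Hosts with all degrees in `[κ D, D]` (or `0`) and at least `κ n D` flags. -/
structure Host (κ D : ℝ) {n : ℕ} (B : FS n) : Prop where
  n0 : 0 < n
  d0 : 0 < D
  pu : ∀ p, ((dP B p).card : ℝ) ≤ D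
  lu : ∀ l, ((dL B l).card : ℝ) ≤ D
  pl : ∀ p l, (p, l) ∈ B → κ * D ≤ ((dP B p).card : ℝ)
  ll : ∀ p l, (p, l) ∈ B → κ * D ≤ ((dL B l).card : ℝ)
  big : κ * n * D ≤ (B.card : ℝ)
  g8 : G8 B

/-- Clean sets of `2`-paths: symmetric, and no subdivided `K_(3,3)` with all its nine `2`-paths in `P`. -/
structure Cl {n : ℕ} (B : FS n) (P : Finset (Fin n × Fin n × Fin n)) : Prop where
  ne : ∀ x l y, (x, l, y) ∈ P → x ≠ y
  fx : ∀ x l y, (x, l, y) ∈ P → (x, l) ∈ B
  sy : ∀ x l y, (x, l, y) ∈ P → (y, l, x) ∈ P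
  no : ∀ (u w : Fin 3 → Fin n) (s : Fin 3 × Fin 3 → Fin n), Function.Injective (Sum.elim u w) →
    Function.Injective s → ¬ ∀ i j, (u i, s (i, j), w j) ∈ P

open Classical in
/-- `Φ(y, z)`: the points `x` joined to `y` and to `z` by `2`-paths of `P` with different lines. -/
noncomputable def Phi {n : ℕ} (P : Finset (Fin n × Fin n × Fin n)) (y z : Fin n) : Finset (Fin n) :=
  Finset.univ.filter (fun x => ∃ l m, l ≠ m ∧ (y, l, x) ∈ P ∧ (x, m, z) ∈ P)

open Classical in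
/-- Gadget tuples `(x, y)`: `x 0, x 1, x 2 ∈ Φ(y 0, y 1)` different and `y 0, y 1, y 2 ∈ Φ(x 0, x 1)` different. -/
noncomputable def TU {n : ℕ} (P : Finset (Fin n × Fin n × Fin n)) :
    Finset ((Fin 3 → Fin n) × (Fin 3 → Fin n)) :=
  Finset.univ.filter (fun t => Function.Injective t.1 ∧ Function.Injective t.2 ∧
    (∀ j, t.1 j ∈ Phi P (t.2 0) (t.2 1)) ∧ ∀ i, t.2 i ∈ Phi P (t.1 0) (t.1 1))

/-- Admissible sets. -/
def Adm {n : ℕ} (B : FS n) : Prop := G8 B ∧ ¬ HasM B ∧ ¬ HasM (sw B)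

/-! ### The host -/

/-- Points and lines of the affine part of `W(F)`. -/
abbrev V3 (F : Type) := F × F × F

/-- Incidence of the point `(a, b, c)` and the line `[m, s, t]`: `b = s + a m`, `c = t + a s`. -/
def Inc {F : Type} [Field F] (p l : V3 F) : Prop :=
  p.2.1 = l.2.1 + p.1 * l.1 ∧ p.2.2 = l.2.2 + p.1 * l.2.1

/-- The alternating form. -/
def fo {F : Type} [Field F] (p r : V3 F) : F := r.2.2 - p.2.2 + p.1 * r.2.1 - p.2.1 * r.1

open Classical in
/-- The flags of `W(F)` in `[n] × [n]`. -/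
noncomputable def WB {F : Type} [Field F] {n : ℕ} (e : V3 F ↪ Fin n) : FS n :=
  Finset.univ.filter (fun z => ∃ p l, Inc p l ∧ z = (e p, e l))

/-! ### Graph level -/

/-- The Turan number of a family: the largest number of edges of a graph on `n` vertices which contains no member of the family. -/
noncomputable def exF (n : ℕ) {ι : Type} (V : ι → Type) (F : ∀ i, SimpleGraph (V i)) : ℕ :=
  sSup {m | ∃ G : SimpleGraph (Fin n), (∀ i, (F i).Free G) ∧ G.edgeSet.ncard = m}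

/-- The compactness conjecture of Erdos and Simonovits, for families of bipartite graphs: every finite nonempty family of bipartite graphs which contain cycles
has a member `F i` with `ex(n, F i) = O(ex(n, F))`. -/
def Compact : Prop :=
  ∀ (k : ℕ) (V : Fin (k + 1) → Type) [∀ i, Fintype (V i)] (F : ∀ i, SimpleGraph (V i)),
    (∀ i, (F i).IsBipartite ∧ ¬ (F i).IsAcyclic) →
    ∃ i, ∃ C N : ℕ, ∀ n, N ≤ n → extremalNumber n (F i) ≤ C * exF n V F

/-- The vertices of the members of the family `{C4, C6, M}`. -/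
def V3F : Fin 3 → Type := ![Fin 4, Fin 6, XM ⊕ YM]

instance : ∀ i, Fintype (V3F i) := fun i => match i with
  | 0 => inferInstanceAs (Fintype (Fin 4))
  | 1 => inferInstanceAs (Fintype (Fin 6))
  | 2 => inferInstanceAs (Fintype (XM ⊕ YM))

/-- The family `{C4, C6, M}`. -/
def F3 : ∀ i, SimpleGraph (V3F i) := fun i => match i with
  | 0 => (cycleGraph 4 : SimpleGraph (Fin 4))
  | 1 => (cycleGraph 6 : SimpleGraph (Fin 6))
  | 2 => (GL.Gr RM : SimpleGraph (XM ⊕ YM))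

/-! ## Part A: tools -/

/-- DUA (short). Exchange of points and lines. The only point: `c6` for `sw B`. Let `l, m, k` be three different lines, pairwise meeting in `p` (`l`, `m`), `q` (`m`, `k`), `r` (`k`, `l`) (after renaming). If `p, q, r` are
different, `c6` says that two of the lines are equal. So two of the points are equal, say `p = q`; then `p` and `r` are both on `k` and `l`, so `p = r` by `c4`. In all cases the three points are equal. -/
def DUA_stmt : Prop := ∀ (n : ℕ) (B : FS n),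
  sw (sw B) = B ∧ (sw B).card = B.card ∧ (∀ p l, (p, l) ∈ sw B ↔ (l, p) ∈ B) ∧
  (∀ p, dP (sw B) p = dL B p) ∧ (∀ p, dL (sw B) p = dP B p) ∧ (G8 B → G8 (sw B)) ∧
  (∀ B' : FS n, B' ⊆ B → sw B' ⊆ sw B ∧ (G8 B → G8 B') ∧ (∀ p, dP B' p ⊆ dP B p) ∧ ∀ p, dL B' p ⊆ dL B p) ∧
  ∀ κ D : ℝ, Host κ D B → Host κ D (sw B)

/-- GAD (short). Gadgets. Symmetry: `u' = w`, `w' = u`, `s' p = s (swap of p)`. -/
def GAD_stmt : Prop := ∀ (n : ℕ) (B : FS n) (x y : Fin n) (S : Finset (VV n)), Gad B x y S →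
  Gad B y x S ∧ x ≠ y ∧ S.card ≤ 12 ∧ S.Nonempty ∧ Sum.inl x ∉ S ∧ Sum.inl y ∉ S ∧
  (∃ l, (y, l) ∈ B) ∧ (∀ B' : FS n, B ⊆ B' → Gad B' x y S)

/-- MEQ (medium). The two forms of `HasM`. From left to right: `c = g ∘ inl`, `x = f ∘ inl`, `u g i = f (uM g i)`, `w g j = f (wM g j)`, `s g p = g (inr (g, p))`. Conversely use the two injective functions as embeddings. -/
def MEQ_stmt : Prop := ∀ (n : ℕ) (B : FS n), HasM B ↔ HasM' B

/-- MMO (short). -/
def MMO_stmt : Prop := ∀ (n m : ℕ) (B : FS n) (B' : FS m) (α β : Fin n ↪ Fin m),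
  (∀ p l, (p, l) ∈ B → (α p, β l) ∈ B') → HasM B → HasM B'

/-- SEL (medium). Greedy choice of disjoint sets: induction on the size of a finite subset of `ι` (e.g. `Finset.induction_on`): if the sets chosen before have the union `U`, `|U ∪ W| < N`, then by disjointness
at most `|U ∪ W|` members of `F i` meet `U ∪ W` (choose a common element; this is injective on the disjoint members that meet it), so one member does not meet it. -/
def SEL_stmt : Prop := ∀ (ι V : Type) [Fintype ι] [DecidableEq ι] [DecidableEq V] (W : Finset V)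
  (s N : ℕ) (F : ι → Finset (Finset V)), (∀ i, N ≤ (F i).card) → (∀ i, ∀ S ∈ F i, S.card ≤ s) →
  (∀ i, ((F i : Finset (Finset V)) : Set (Finset V)).PairwiseDisjoint id) →
  W.card + Fintype.card ι * s < N →
  ∃ g : ι → Finset V, (∀ i, g i ∈ F i) ∧ (∀ i, Disjoint (g i) W) ∧
    ∀ i j, i ≠ j → Disjoint (g i) (g j)

/-- FNM (medium). Six different lines and nine different points with all `18` T-relations give `M`. Uses SEL, MEQ.
PROOF. For `g : GI` let `c_g = b (g.2.2.1)` if `g.1 = true`, `c_g = a (g.2.1)` otherwise, and `x_g = x (xg g)`. First SEL with `V = Fin n`, `W` = the nine points `x`, `s = 1`, `N = 500` and the families of singletons `{y}`, `y ∈ Tset B c_g x_g`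
(`9 + 36 < 500`): different points `y_g ∈ Tset B c_g x_g`, different from all `x (i, j)`. Then SEL with `V = VV n`, `s = 12`, `N = 500`, `W` = the points `x`, `y_g` and the lines `a`, `b` (at most `51` elements; `51 + 36 * 12 = 483 < 500`) and the families from
`Rob B x_g y_g` (an internal set has at most `4 + 8` elements): gadgets with disjoint internal sets. This is the geometric form of `M` (`HasM'`). -/
def FNM_stmt : Prop := ∀ (n : ℕ) (B : FS n) (a b : Fin 3 → Fin n) (x : Fin 3 × Fin 3 → Fin n),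
  Function.Injective (Sum.elim a b) → Function.Injective x → (∀ i j, TT B (a i) (x (i, j))) →
  (∀ i j, TT B (b j) (x (i, j))) → HasM B

/-- PCK (medium). A relation with more than `12 n^(3/2)` elements contains a subdivided `K_(3,3)`. `T ∋ (c, x)`.
PROOF. `T(x) = {c | (c, x) ∈ T}`; `∑_x |T(x)|^2 ≥ |T|^2 / n > 135 n^2`. Call `(c, c')`, `c ≠ c'`, light if at most `8` points `x` have `c, c' ∈ T(x)`; `λ(x)` = number of light pairs in `T(x)`; `∑ λ(x) ≤ 8 n^2` and `∑ |T(x)| ≤ n^2`. So there is `x`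
with `|T(x)|^2 > 15 λ(x) + 15 |T(x)|`. Among the `|T(x)|^6` maps `Fin 6 → T(x)`, for each of the `15` pairs `i < j` at most `|T(x)|^4 (|T(x)| + λ(x))` have equal or light values at `i, j` (light is symmetric). So there is a map with pairwise different and not light values
`a_0, a_1, a_2, b_0, b_1, b_2`. Each pair `(a_i, b_j)` has at least nine common points; choose nine different ones greedily. (A direct proof by choosing the six values one after the other is possible only with the sum over all maps as above, or by Turan type counting; the union bound over maps is the simplest.) -/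
def PCK_stmt : Prop := ∀ (n : ℕ) (T : FS n), 135 * n ^ 3 < T.card ^ 2 →
  ∃ (a b : Fin 3 → Fin n) (x : Fin 3 × Fin 3 → Fin n), Function.Injective (Sum.elim a b) ∧
    Function.Injective x ∧ ∀ i j, (a i, x (i, j)) ∈ T ∧ (b j, x (i, j)) ∈ T

/-- CFB (short). PROOF. `∑_l |dL B l|^2 ≥ |B|^2 / n ≥ κ^2 n D^2` (Cauchy-Schwarz); it counts triples `(x, l, y)` with `x, y` on `l`; those with `x ≠ y` are at most `n^2` (`c4`), those with `x = y` are `|B| ≤ n^2`. -/
def CFB_stmt : Prop := ∀ (κ D : ℝ) (n : ℕ) (B : FS n), 0 < κ → Host κ D B → κ ^ 2 * D ^ 2 ≤ 2 * n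

/-- DNS (medium). LEMMA 1. Uses PCK, FNM, CFB, GAD.
PROOF. `∑_{c, x} |Tset B c x| = ∑_{(x, y) robust} |dP B y| ≥ κ D |RobS B|` (`y` is on a line by GAD). Let `T = {(c, x) | TT B c x}`. As `|Tset B c x| ≤ |dL B c| ≤ D`: `D |T| + 500 n^2 ≥ κ D |RobS| ≥ κ A n^2`. So `|T| ≥ (κ A - 500) n^2 / D` and, by CFB,
`|T|^2 ≥ (κ A - 500)^2 κ^2 n^3 / 2 > 135 n^3` for `A` large. Apply PCK and FNM. -/
def DNS_stmt : Prop := ∀ κ : ℝ, 0 < κ → ∃ A : ℝ, 0 < A ∧ ∀ (n : ℕ) (D : ℝ) (B : FS n), Host κ D B →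
  A * n ^ 2 ≤ D * ((RobS B).card : ℝ) → HasM B

/-- ARI (short). PROOF. `K ≤ D` from `K^13 ≤ D^13`. If `D^4 < K n` then `D^16 < K^4 n^4 ≤ K^4 D^13 / K^13`, so `D^3 < K^(-9) ≤ 1`, but `D ≥ K ≥ 1`. -/
def ARI_stmt : Prop := ∀ (K D : ℝ) (n : ℕ), 1 ≤ K → 0 < n → 0 < D → K ^ 13 * n ^ 4 ≤ D ^ 13 →
  K ≤ D ∧ K * n ≤ D ^ 4

/-! ## Part B: many robust pairs (Lemma 2) -/

/-- MXF (short). Uses GAD. PROOF. Take a set `W` of pairwise disjoint gadget sets (avoiding `l`) of maximal cardinality (e.g. `Finset.exists_max_image` over the filtered powerset; it is nonempty: the empty family); it has less than `500` members; `F` = its union (`card ≤ 499 * 12`). A gadget set disjoint from `F` could be added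
(gadget sets are not empty). -/
def MXF_stmt : Prop := ∀ (n : ℕ) (B : FS n) (x y : Fin n),
  (¬ Rob B x y → ∃ F : Finset (VV n), F.card ≤ 6000 ∧ ∀ S, Gad B x y S → ¬ Disjoint S F) ∧
  (∀ l, x ≠ y → (x, l) ∈ B → (y, l) ∈ B → ¬ Good B x l y → ∃ F : Finset (VV n), F.card ≤ 6000 ∧
    Sum.inl x ∉ F ∧ Sum.inl y ∉ F ∧ Sum.inr l ∉ F ∧
    ∀ S, Gad B x y S → Sum.inr l ∉ S → ¬ Disjoint S F)

/-- AVZ (short). PROOF. Sum over all `Z`: the item `i` is counted for `2^(|V| - |A i| - |F i|) ≥ 2^(|V| - k)` sets `Z` (the sets `A i ∪ Z'` with `Z' ⊆ V \ (A i ∪ F i)`); there are `2^|V|` sets `Z`. -/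
def AVZ_stmt : Prop := ∀ (ι V : Type) [Fintype V] [DecidableEq V] (I : Finset ι) (A F : ι → Finset V)
  (k : ℕ), (∀ i ∈ I, Disjoint (A i) (F i)) → (∀ i ∈ I, (A i).card + (F i).card ≤ k) →
  ∃ Z : Finset V, I.card ≤ 2 ^ k * (I.filter (fun i => A i ⊆ Z ∧ Disjoint (F i) Z)).card

/-- CLE (medium). Uses MXF, AVZ, GAD. PROOF. There are `∑_l d_l (d_l - 1) ≥ (κ D - 1) |B| ≥ κ^2 n D^2 / 2` `2`-paths `(x, l, y)` with `x ≠ y` (`d_l = |dL B l|`, `κ D ≥ 2`; `d_l = 0` or `d_l ≥ κ D`). So at least `κ^2 n D^2 / 4` of them are not good; call this set `N`. For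
`(x, l, y) ∈ N` let `F0(x, l, y)` be a set as in MXF and `F(x, l, y) = F0(x, l, y) ∪ F0(y, l, x)` (`N` is symmetric). AVZ with `k = 12003` gives `Z`; `P = {(x, l, y) ∈ N | x, l, y ∈ Z, F ∩ Z = ∅}`; `k1 = κ^2 / 4 / 2^12003` (keep `2^12003` as an opaque positive number). `no`: if all `(u i, s (i, j), w j) ∈ P` then
`S = inn u w (s restricted)` is contained in `Z`, it is a gadget set between `w 2` and `u 2` which avoids `s (2, 2)`, so it meets `F(u 2, s (2, 2), w 2)`, but `F ∩ Z = ∅`. -/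
def CLE_stmt : Prop := ∀ κ : ℝ, 0 < κ → ∃ C k1 : ℝ, 0 < k1 ∧ ∀ (n : ℕ) (D : ℝ) (B : FS n), Host κ D B →
  C ≤ D → ((GoodS B).card : ℝ) < κ ^ 2 / 4 * n * D ^ 2 →
  ∃ P : Finset (Fin n × Fin n × Fin n), Cl B P ∧ k1 * n * D ^ 2 ≤ (P.card : ℝ)

/-- GEO (medium). Geometry of `Φ`. PROOF. `(x, l, y) ∈ P` gives `x ≠ y`, `(x, l) ∈ B`, `(y, l) ∈ B` (by `sy`). If `x ∈ Φ(y, z)` with lines `l ≠ m` then `y ≠ z` (`c4`). If `x ≠ x'` in `Φ(y, z)`, with lines `l` (through `y`, `x`), `m` (through `x`, `z`), `l'` (through `y`, `x'`), `m'` (through `x'`, `z`): if `l = l'` then `x, x', z` are pairwise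
collinear by `l`, `m'`, `m`, so `l = m` by `c6` (three different points), contradiction. So `l ≠ l'` and `y ∈ Φ(x, x')`. -/
def GEO_stmt : Prop := ∀ (n : ℕ) (B : FS n) (P : Finset (Fin n × Fin n × Fin n)), G8 B → Cl B P →
  (∀ x l y m, (x, l, y) ∈ P → (x, m, y) ∈ P → l = m) ∧
  (∀ x y z, x ∈ Phi P y z → x ∈ Phi P z y ∧ y ≠ z ∧ x ≠ y ∧ x ≠ z ∧
    (∃ l, (x, l, y) ∈ P) ∧ (∃ l, (x, l, z) ∈ P)) ∧
  (∀ x x' y z, x ≠ x' → x ∈ Phi P y z → x' ∈ Phi P y z → y ∈ Phi P x x')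

/-- DIS (medium). Different lines. Uses GEO. PROOF. `s a b` is on the points `y a`, `x b`. Let `s a b = s a' b' =: l`. If `a = a'`, `b ≠ b'`: `y a ∈ Φ(x b, x b')` with lines `s a b`, `s a b'` (the only lines, GEO) which are different. If `a ≠ a'`, `b = b'`: the lines `s a b`, `s a' b` at `x b`: take the hypothesis `hx`. If `a ≠ a'` and `b ≠ b'` then `l` contains
`y a, x b, y a', x b'`; one of `(a, b')`, `(a', b)` is in `E`, say `(a, b')`: then `s a b'` is the line through `y a`, `x b'` (`c4`), so `s a b' = l = s a b`, the first case (for `(a', b) ∈ E` the same with `s a' b`). -/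
def DIS_stmt : Prop := ∀ (n : ℕ) (B : FS n) (P : Finset (Fin n × Fin n × Fin n)), G8 B → Cl B P →
  ∀ (E : Finset (Fin 3 × Fin 3)) (x y : Fin 3 → Fin n) (s : Fin 3 × Fin 3 → Fin n),
  (∀ a a' b b', a ≠ a' → b ≠ b' → (a, b) ∈ E → (a', b') ∈ E → (a, b') ∈ E ∨ (a', b) ∈ E) →
  Function.Injective x → Function.Injective y → (∀ e ∈ E, (y e.1, s e, x e.2) ∈ P) →
  (∀ a b b', b ≠ b' → (a, b) ∈ E → (a, b') ∈ E → y a ∈ Phi P (x b) (x b')) →
  (∀ a a' b, a ≠ a' → (a, b) ∈ E → (a', b) ∈ E → x b ∈ Phi P (y a) (y a')) →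
  ∀ e ∈ E, ∀ e' ∈ E, s e = s e' → e = e'

/-- CTR (medium). Centres. Uses GEO, DIS. PROOF. Suppose there are three different centres `y 0, y 1, y 2`. All `(y i, s (i, j), x j) ∈ P` for suitable lines. `x j ∈ Φ(y i, y i')`: by GEO (third part), because `y i ≠ y i'` are both in `Φ(x j, x j')` for any `j' ≠ j`. Points: `y i ≠ x j` by GEO. DIS with `E = univ` and `Cl.no` give a contradiction. -/
def CTR_stmt : Prop := ∀ (n : ℕ) (B : FS n) (P : Finset (Fin n × Fin n × Fin n)), G8 B → Cl B P →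
  ∀ (x : Fin 3 → Fin n) (Z : Finset (Fin n)), Function.Injective x →
  (∀ y ∈ Z, ∀ i j, i ≠ j → y ∈ Phi P (x i) (x j)) → Z.card ≤ 2

/-- TUG (medium). A tuple is a gadget between `x 2` and `y 2`. Uses GEO, DIS. PROOF. `E = {(i, j) ≠ (2, 2)}`. By GEO all needed `Φ`-relations hold: `y i ∈ Φ(x j, x j')` for `i ∈ {0, 1}` because `x j ≠ x j'` are in `Φ(y 0, y 1)`; `y 2 ∈ Φ(x 0, x 1)` given; `x j ∈ Φ(y i, y i')` for `j ∈ {0, 1}` because `y i ≠ y i'` are in `Φ(x 0, x 1)`; `x 2 ∈ Φ(y 0, y 1)` given.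
Different points: `y i ≠ x j` for `(i, j) ∈ E` by GEO; `y 2 = x 2 =: z` is impossible: `z`, `x 0`, `y 0` would be pairwise collinear, so on one line, `z` would be on the line of `y 0`, `x 0` and also on the line of `y 0`, `x 1`; these lines are different (`y 0 ∈ Φ(x 0, x 1)`), so `z = y 0` by `c4`, but `y 2 ≠ y 0`. -/
def TUG_stmt : Prop := ∀ (n : ℕ) (B : FS n) (P : Finset (Fin n × Fin n × Fin n)), G8 B → Cl B P →
  ∀ t ∈ TU P, (∀ i j k, j ≠ k → (i, j) ≠ (2, 2) → (i, k) ≠ (2, 2) → t.2 i ∈ Phi P (t.1 j) (t.1 k)) ∧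
  (∀ i j k, j ≠ k → (j, i) ≠ (2, 2) → (k, i) ≠ (2, 2) → t.1 i ∈ Phi P (t.2 j) (t.2 k)) ∧
  ∃ s : P8 → Fin n, IsG B t.2 t.1 s ∧ ∀ p : P8, (t.2 p.1.1, s p, t.1 p.1.2) ∈ P

/-- PHC (medium). PROOF. Let `d(x)` be the number of `(l, y)` with `(x, l, y) ∈ P`. `|P|^2 ≤ n ∑_x d(x)^2`, and `∑_x d(x)^2` is the number of `(y, l, x, m, z)` with `(y, l, x), (x, m, z) ∈ P` (symmetry). Those with `l = m`: at most `n D * D * D`. Those with `l ≠ m` are determined by `(y, z, x)`, `x ∈ Φ(y, z)` (the lines are unique by `c4`). So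
`∑_x d(x)^2 ≤ ∑ |Φ(y, z)| + n D^3`. Second: for each `x` at most `D^2` points `y` and at most `D^2` points `z`. -/
def PHC_stmt : Prop := ∀ (n : ℕ) (D : ℝ) (B : FS n) (P : Finset (Fin n × Fin n × Fin n)), 0 < D → G8 B → Cl B P →
  (∀ p, ((dP B p).card : ℝ) ≤ D) → (∀ l, ((dL B l).card : ℝ) ≤ D) →
  (P.card : ℝ) ^ 2 ≤ n * ((∑ e : Fin n × Fin n, ((Phi P e.1 e.2).card : ℝ)) + n * D ^ 3) ∧
  (∑ e : Fin n × Fin n, ((Phi P e.1 e.2).card : ℝ)) ≤ n * D ^ 4

/-- TUC (medium). Many tuples. Uses GEO. PROOF. Let `f(y, z) = |Φ(y, z)|`, `S1 = ∑ f`, and `CY` the set of `(y0, y1, x0, x1)` with `x0 ≠ x1` in `Φ(y0, y1)`; `|CY| = ∑ (f^2 - f) ≥ S1^2 / n^2 - S1`. By GEO `(y0, y1, x0, x1) ∈ CY` implies `(x0, x1, y0, y1) ∈ CY`. At most `∑_{f < h} f^2 ≤ n^2 h^2` elements have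
`f(y0, y1) < h`, and by symmetry at most `n^2 h^2` have `f(x0, x1) < h`. For each other element there are at least `h - 2` choices of `x2 ∈ Φ(y0, y1)` different from `x0, x1` and at least `h - 2` choices of `y2 ∈ Φ(x0, x1)` different from `y0, y1`; these are different elements of `TU P` (`y0, y1 ∈ Φ(x0, x1)` and `y0 ≠ y1` by GEO). -/
def TUC_stmt : Prop := ∀ (n : ℕ) (B : FS n) (P : Finset (Fin n × Fin n × Fin n)) (h S1 : ℝ), 0 < n →
  G8 B → Cl B P → 2 ≤ h → S1 = (∑ e : Fin n × Fin n, ((Phi P e.1 e.2).card : ℝ)) →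
  (S1 ^ 2 / n ^ 2 - S1 - 2 * n ^ 2 * h ^ 2) * (h - 2) ^ 2 ≤ ((TU P).card : ℝ)

/-- TUA (medium). Tuples with given ends. Uses GEO, CTR, TUG. PROOF. `y 2 = b` is joined to `x 0` and `x 1`: at most `D^2` choices each. Given `x` (with `x 2 = a`), `y 0 ≠ y 1` are in the set of centres of `x` (TUG, first part), which has at most two elements (CTR): at most `2` choices. -/
def TUA_stmt : Prop := ∀ (n : ℕ) (D : ℝ) (B : FS n) (P : Finset (Fin n × Fin n × Fin n)), 1 ≤ D → G8 B → Cl B P →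
  (∀ p, ((dP B p).card : ℝ) ≤ D) → (∀ l, ((dL B l).card : ℝ) ≤ D) → ∀ a b : Fin n,
  (((TU P).filter (fun t => t.1 2 = a ∧ t.2 2 = b)).card : ℝ) ≤ 2 * D ^ 4

/-- TUB (medium-long). Tuples with given ends and a given internal vertex `v`. Uses GEO, CTR, TUG. PROOF. Each of the `12` positions of `v` is possible for at most `2 D^3` tuples. `v = x 0`: `D^2` choices for `x 1` (joined to `b`), then `2` choices for `(y 0, y 1)` (two centres of `x`, CTR). `v = y 0`: `D^2` choices for `y 1` (joined to `a`), then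
`2` choices for `(x 0, x 1)` (two centres of `y`). `v` is the line of `(y 2, x j)` or of `(y i, x j)`, `i, j ∈ {0, 1}`: `x j` is on `v` (`D` choices), the other one of `x 0, x 1` has `D^2` choices, then `2`. `v` is the line of `(y i, x 2)`: `y i` is on `v`, `D * D^2 * 2`. -/
def TUB_stmt : Prop := ∀ (n : ℕ) (D : ℝ) (B : FS n) (P : Finset (Fin n × Fin n × Fin n)), 1 ≤ D → G8 B → Cl B P →
  (∀ p, ((dP B p).card : ℝ) ≤ D) → (∀ l, ((dL B l).card : ℝ) ≤ D) → ∀ (a b : Fin n) (v : VV n)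
  (Q : Finset ((Fin 3 → Fin n) × (Fin 3 → Fin n))), (∀ t ∈ Q, t ∈ TU P ∧ t.1 2 = a ∧ t.2 2 = b ∧
    ∃ s : P8 → Fin n, IsG B t.2 t.1 s ∧ v ∈ inn t.2 t.1 s) → (Q.card : ℝ) ≤ 24 * D ^ 3

/-- RBC (medium, assembly). Uses PHC, TUC, TUA, TUB, TUG, MXF, ARI, GAD.
PROOF. `β = k1^2 / 4` (we may assume `k1 ≤ 1` by decreasing `k1`). For large `C` (ARI) `D` and `D^4 / n` are larger than any constant depending on `β`. `S1 ≥ |P|^2 / n - n D^3 ≥ 4 β n D^4 - n D^3 ≥ 2 β n D^4`, `S1 ≤ n D^4`. With `h = β D^4 / n ≥ 4` TUC gives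
`|TU| ≥ (4 β^2 D^8 - n D^4 - 2 β^2 D^8) (h/2)^2 ≥ β^4 D^16 / (4 n^2)`. If `(a, b)` is not robust, take `F` as in MXF for `(x, y) = (a, b)`: every tuple with ends `a, b` is a gadget between `x 2 = a` and `y 2 = b` (`Gad B a b (inn y x s)`), meets `F`, so there are at most `6000 * 24 D^3` such tuples (TUB); all these are at most `144000 n^2 D^3 ≤ |TU| / 2` if `C` is large.
So the robust pairs have at least `|TU| / 2` tuples, at most `2 D^4` each: `|RobS| ≥ β^4 D^12 / (16 n^2)`, and `D |RobS| ≥ A n^2` if `C ≥ 16 A / β^4`. -/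
def RBC_stmt : Prop := ∀ k1 A : ℝ, 0 < k1 → 0 < A → ∃ C : ℝ, ∀ (n : ℕ) (D : ℝ) (B : FS n)
  (P : Finset (Fin n × Fin n × Fin n)), 0 < n → 0 < D → G8 B → Cl B P →
  (∀ p, ((dP B p).card : ℝ) ≤ D) → (∀ l, ((dL B l).card : ℝ) ≤ D) → k1 * n * D ^ 2 ≤ (P.card : ℝ) →
  C * n ^ 4 ≤ D ^ 13 → A * n ^ 2 ≤ D * ((RobS B).card : ℝ)

/-- LMT (short). LEMMA 2. Uses CLE, RBC, DNS, ARI. PROOF. `r = κ^2 / 4`. If there are less than `r n D^2` good `2`-paths then CLE, RBC (with `A` of DNS), DNS. -/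
def LMT_stmt : Prop := ∀ κ : ℝ, 0 < κ → ∃ C r : ℝ, 0 < r ∧ ∀ (n : ℕ) (D : ℝ) (B : FS n), Host κ D B →
  C * n ^ 4 ≤ D ^ 13 → HasM B ∨ r * n * D ^ 2 ≤ ((GoodS B).card : ℝ)

/-! ## Part C: the upper bound -/

/-- TGF (short). PROOF. Flags outside of `GF B` have less than `500` good `y` each (`|B| ≤ n D` flags), flags in `GF B` at most `D`: `r n D^2 ≤ 500 n D + D |GF B|`. -/
def TGF_stmt : Prop := ∀ r : ℝ, 0 < r → ∃ C : ℝ, ∀ (n : ℕ) (D : ℝ) (B : FS n), 0 < D →
  (∀ p, ((dP B p).card : ℝ) ≤ D) → (∀ l, ((dL B l).card : ℝ) ≤ D) → C ≤ D →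
  r * n * D ^ 2 ≤ ((GoodS B).card : ℝ) → r / 2 * n * D ≤ ((GF B).card : ℝ)

/-- GFT (short). PROOF. `Good B x l y` implies `(y, l) ∈ B` and `Rob B x y`. -/
def GFT_stmt : Prop := ∀ (n : ℕ) (B : FS n), GF B ⊆ B ∧ ∀ x l, (x, l) ∈ GF B → TT B l x

/-- CLN (medium). PROOF. Choose `B' ⊆ B` such that `|B'| + δ (#{p | dP B' p = ∅} + #{l | dL B' l = ∅})` is maximal. Comparing with `B`: `|B'| + 2 n δ ≥ |B|`. If `(p, l) ∈ B'` and `|dP B' p| < δ`, then removing all flags at `p` makes the quantity larger; the same for lines. -/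
def CLN_stmt : Prop := ∀ (n : ℕ) (B : FS n) (δ : ℝ), 0 ≤ δ → ∃ B' : FS n, B' ⊆ B ∧
  (B.card : ℝ) - 2 * n * δ ≤ (B'.card : ℝ) ∧
  ∀ p l, (p, l) ∈ B' → δ ≤ ((dP B' p).card : ℝ) ∧ δ ≤ ((dL B' l).card : ℝ)

/-- DGX (short). A dual gadget and its `2`-path. PROOF. Take a member `S = inn u w s` of the family: `a = u`, `b = w`, `X (i, j) = s (i, j)`, `X (2, 2) = x`; `inr x ∉ S`. -/
def DGX_stmt : Prop := ∀ (n : ℕ) (B : FS n) (l x l' : Fin n), Good (sw B) l x l' →
  ∃ (a b : Fin 3 → Fin n) (X : Fin 3 × Fin 3 → Fin n), Function.Injective (Sum.elim a b) ∧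
    Function.Injective X ∧ ∀ i j, (X (i, j), a i) ∈ B ∧ (X (i, j), b j) ∈ B

/-- PRT (medium). PROPOSITION 3. Uses LMT, TGF, GFT, CLN, DGX, FNM, DUA, ARI, MMO. PROOF. Suppose that `B`, `sw B` do not have `M`. LMT: `|GoodS B| ≥ r n D^2`; TGF: `|GF B| ≥ (r/2) n D`; CLN with `δ = (r/8) D`: `B' ⊆ GF B` with `|B'| ≥ (r/4) n D`: `Host (r/8) D B'`, so `Host (r/8) D (sw B')`. `sw B' ⊆ sw B` has no `M` (MMO). LMT for `sw B'`: there is a good `2`-path
`(l, x, l')` in `sw B'`. DGX, GFT, FNM: `HasM B`, contradiction. -/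
def PRT_stmt : Prop := ∀ κ : ℝ, 0 < κ → ∃ C : ℝ, ∀ (n : ℕ) (D : ℝ) (B : FS n), Host κ D B →
  C * n ^ 4 ≤ D ^ 13 → HasM B ∨ HasM (sw B)

/-- ADM (short). Uses MMO, DUA. `comap` of an admissible set along injections is admissible. -/
def ADM_stmt : Prop := ∀ (m n : ℕ) (α β : Fin m ↪ Fin n) (B : FS n), Adm B →
  (∀ B' : FS n, B' ⊆ B → Adm B') ∧ Adm (sw B) ∧
  Adm (Finset.univ.filter (fun e : Fin m × Fin m => (α e.1, β e.2) ∈ B))

/-- BLK (medium). Blocks. Uses ADM. PROOF. Let `H' ⊇ H` with `|H'| = m` and `α : Fin m ↪ Fin n` with image `H'`. For each block `{l | l.val / m = k}` (`k ≤ n / m`; at most `m` elements) let `β : Fin m ↪ Fin n` have an image containing the block. By ADM the flags `(p, l)` with `p ∈ H`, `l` in the block are at most `f`. There are at most `n / m + 1` blocks. -/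
def BLK_stmt : Prop := ∀ (n m : ℕ) (B : FS n) (H : Finset (Fin n)) (f : ℝ), 0 < m → m ≤ n → H.card ≤ m →
  Adm B → (∀ B' : FS m, Adm B' → (B'.card : ℝ) ≤ f) →
  ((B.filter (fun e => e.1 ∈ H)).card : ℝ) ≤ ((n : ℝ) / m + 1) * f

/-- STP (short). PROOF. `m ≤ n / 2^13`, `n / m + 1 ≤ 2 n / m`, `m^(17/13) / m = m^(4/13) ≤ n^(4/13) * 2^(-4)`. -/
def STP_stmt : Prop := ∀ (n m : ℕ), 0 < m → (m : ℝ) ≤ n / 2 ^ 13 →
  ((n : ℝ) / m + 1) * (m : ℝ) ^ (17 / 13 : ℝ) ≤ (n : ℝ) ^ (17 / 13 : ℝ) / 8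

/-- HVY (medium). Heavy points carry few flags. Uses BLK, STP. PROOF. `H = {p | |dP B p| > 2^14 C n^(4/13)}`; `|H| * 2^14 C n^(4/13) ≤ |B| ≤ 2 C n^(17/13)`, so `|H| ≤ n / 2^13`. If `H` is empty we are done; otherwise `m = |H| ≥ 1` (or `m = ⌊n / 2^13⌋`), `m < n`, BLK with `f = C m^(17/13)`, STP. -/
def HVY_stmt : Prop := ∀ (n : ℕ) (C : ℝ) (B : FS n), 0 < n → 1 ≤ C → Adm B →
  (∀ m < n, ∀ B' : FS m, Adm B' → (B'.card : ℝ) ≤ C * (m : ℝ) ^ (17 / 13 : ℝ)) →
  (B.card : ℝ) ≤ 2 * C * (n : ℝ) ^ (17 / 13 : ℝ) →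
  ((B.filter (fun e => 2 ^ 14 * C * (n : ℝ) ^ (4 / 13 : ℝ) < ((dP B e.1).card : ℝ))).card : ℝ) ≤
    C * (n : ℝ) ^ (17 / 13 : ℝ) / 8

/-- UPF (medium). THE UPPER BOUND for sets of flags. Uses PRT, HVY, CLN, ADM, DUA. PROOF. `a = 17/13`, `C0` from PRT for `κ = 2^(-17)`; choose `C ≥ 1` with `2^(14*13) C^13 ≥ C0`. Strong induction on `n` (`n = 0`: `B = ∅`). Suppose `|B| > C n^a`. Replace `B` by a subset with `⌈C n^a⌉ ≤ 2 C n^a` elements. Remove the flags at points of degree `> D = 2^14 C n^(4/13)` and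
at lines of degree `> D` (HVY for `B` and for `sw B`): at least `C n^a (1 - 1/8 - 1/8)` flags are left, `B1`. CLN with `δ = C n^(4/13) / 8`: `B2 ⊆ B1` with at least `(3/4) C n^a - C n^a / 4 = C n^a / 2` flags and degrees `≥ δ = 2^(-17) D`, `≤ D`: `Host (2^(-17)) D B2`, `D^13 = 2^(14*13) C^13 n^4 ≥ C0 n^4`. PRT contradicts `Adm B2`. -/
def UPF_stmt : Prop := ∃ C : ℝ, 0 < C ∧ ∀ (n : ℕ) (B : FS n), Adm B →
  (B.card : ℝ) ≤ C * (n : ℝ) ^ (17 / 13 : ℝ)

/-- CUG (medium). The bipartite half of a graph. PROOF. For `S : Finset (Fin n)` let `B_S = {(u, v) | u ∈ S, v ∉ S, G.Adj u v}`; the sum of `|B_S|` over the `2^n` sets is `2 e(G) 2^(n-2)` for `n ≥ 2` (see `Pool/Agent/helper8/GL/CUT.lean`). Properties: a pair `(u, v) ∈ B_S` is an edge with `u ∈ S`, `v ∉ S`. `G8`: `c4`: `p, l, q, m` with `p ≠ q`, `l ≠ m` would be a copy of `C4` (points are in `S`, lines are not);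
`c6`: if the lines are not all equal, they are pairwise different (if two lines are equal, use `c4`), and `p, l, q, m, r, k` would be a copy of `C6`. `HasM B_S` and `HasM (sw B_S)` give a copy of `Gr RM` (`Sum.elim f g`; every vertex of `M` has a neighbour, so the images of points and lines are on different sides). -/
def CUG_stmt : Prop := ∀ (n : ℕ) (G : SimpleGraph (Fin n)), (cycleGraph 4).Free G → (cycleGraph 6).Free G →
  (GL.Gr RM).Free G → ∃ B : FS n, Adm B ∧ G.edgeSet.ncard ≤ 2 * B.card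

/-! ## Part D: the host -/

/-- WAA (short). Direct computations. With `p = (a, b, c)`, `r = (a', b', c')`, `l = [m, s, t]`: `c' - c = (a' - a) s`, `a b' - b a' = (a - a') s`. Two different points on a line have different first coordinates, `m = (b - b') / (a - a')` etc. Last part: `x = (α, β, γ)`: `fo y x = (γ - t - s α) + a (β - s - m α)`; for two values of `a` both brackets vanish. -/
def WAA_stmt : Prop := ∀ (F : Type) [Field F],
  (∀ p r l : V3 F, Inc p l → Inc r l → fo p r = 0 ∧ (p.1 = r.1 → p = r)) ∧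
  (∀ p r l m : V3 F, Inc p l → Inc r l → Inc p m → Inc r m → p = r ∨ l = m) ∧
  (∀ y y' x l : V3 F, y ≠ y' → Inc y l → Inc y' l → fo y x = 0 → fo y' x = 0 → Inc x l) ∧
  (∀ p r : V3 F, fo r p = - fo p r)

/-- WCL (medium). Closure. PROOF. `w 0 = (a1, b1, c1)`, `w 1 = (a2, b2, c2)`. `fo u w_i = 0` for `u = (a, b, c)` says `c = c_i + a b_i - b a_i`. The difference: `(c2 - c1) + a (b2 - b1) - b (a2 - a1) = 0`. If `a1 = a2`, `b1 = b2` then `c1 = c2` (there is a solution `u 0`), contradiction. So the solutions `(a, b)` form an affine line and `c` is an affine function: with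
`u 0 ≠ u 1` there is `r` with `u 2 = (1 - r) u 0 + r u 1` (all coordinates), and `fo` is affine in the first argument: `fo (u 2) (w 2) = (1 - r) fo (u 0) (w 2) + r fo (u 1) (w 2) = 0`. -/
def WCL_stmt : Prop := ∀ (F : Type) [Field F] (u w : Fin 3 → V3 F), u 0 ≠ u 1 → w 0 ≠ w 1 →
  (∀ p : P8, fo (u p.1.1) (w p.1.2) = 0) → fo (u 2) (w 2) = 0

/-- WGR (medium). No `3 × 3` grid. PROOF. `a i = (m_i, s_i, t_i)`, `b j = (M_j, S_j, T_j)`, `α_ij` the first coordinate of `x (i, j)`, `δ_ij = m_i - M_j`. From the incidences `s_i - S_j = - α δ`, `t_i - T_j = α^2 δ` (`α = α_ij`, `δ = δ_ij`); so with `Q(m, s, t) = m t - s^2` we have `Q(a i - b j) = 0`, and `δ_ij ≠ 0` (otherwise `a i = b j`). Let `A_i = α_i0`, `d_i = δ_i0`: the `A_i` are pairwise different (points of the line `b 0` with the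
same first coordinate are equal). For `j = 1, 2` let `e_j = b j - b 0 = (p, r, z)`; `0 = Q((a i - b 0) - e_j) = Q(e_j) - d_i (z + 2 A_i r + A_i^2 p)`. If `Q(e_1) = 0`: the polynomial `z + 2 r X + p X^2` has three different roots, so it is `0` and `e_1 = 0` (`2 ≠ 0`), contradiction to `b 1 ≠ b 0`. If `Q(e_1) ≠ 0`: for all `i` (multiply by each other and cancel `d_i`) `Q(e_2) g_1(A_i) = Q(e_1) g_2(A_i)` with
`g_j = z_j + 2 r_j X + p_j X^2`; three different roots again: `Q(e_2) e_1 = Q(e_1) e_2`, so `e_2 = λ e_1` with `λ = Q(e_2) / Q(e_1)` and `λ Q(e_1) = Q(e_2) = λ^2 Q(e_1)`: `λ = 0` or `λ = 1`, i.e. `b 2 = b 0` or `b 2 = b 1`, contradiction. -/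
def WGR_stmt : Prop := ∀ (F : Type) [Field F], (2 : F) ≠ 0 → ∀ (a b : Fin 3 → V3 F)
  (x : Fin 3 × Fin 3 → V3 F), Function.Injective (Sum.elim a b) → Function.Injective x →
  ¬ ∀ i j, Inc (x (i, j)) (a i) ∧ Inc (x (i, j)) (b j)

/-- WNM (medium). Uses MEQ, WAA, WCL, WGR. PROOF. Take the geometric form. All vertices of a flag of `WB e` are in the range of `e`: every point and line of the copy used below is `e` of something (each `y_g`, `u`, `w`, `s`, `c`, `x` is in a flag). For each `g` the lines `s g p` give `fo (u p.1.1) (w p.1.2) = 0` (WAA), so `fo y_g x_g = 0` (WCL; `u 0 ≠ u 1`, `w 0 ≠ w 1`). The two indices `g` with the same `(side, i, j)`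
give two different points `y_g` on the line `c (cg g)`, so `x (xg g)` is on `c (cg g)` (WAA). So `x (i, j)` is on `a i = c (false, i)` and on `b j = c (true, j)`: WGR. -/
def WNM_stmt : Prop := ∀ (F : Type) [Field F], (2 : F) ≠ 0 → ∀ (n : ℕ) (e : V3 F ↪ Fin n), ¬ HasM (WB e)

/-- WGE (medium). Uses WAA. PROOF. `c4`: WAA. `c6`: three different pairwise collinear points: `p, q` on `l`, and `fo p r = fo q r = 0`, so `r` is on `l`; then `l = m` and `m = k` by `c4`. Number of flags: for each point `(a, b, c)` and each `m` exactly one line (`s = b - a m`, `t = c - a s`). -/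
def WGE_stmt : Prop := ∀ (F : Type) [Field F] [Fintype F] (n : ℕ) (e : V3 F ↪ Fin n),
  G8 (WB e) ∧ (WB e).card = (Fintype.card F) ^ 4

/-- PRM (short-medium). Primes. PROOF. `k = ⌊n^(1/3) / 2⌋` (`k` the largest number with `(2k)^3 ≤ n`); Bertrand (`Nat.exists_prime_lt_and_le_two_mul`): a prime `q` with `k < q ≤ 2 k`; `q > k ≥ 2`, `q^3 ≤ n`, `n < (2 (k + 1))^3 ≤ (2 q)^3`, so `q^4 ≥ n^(4/3) / 16`. -/
def PRM_stmt : Prop := ∀ n : ℕ, 64 ≤ n → ∃ q : ℕ, q.Prime ∧ 2 < q ∧ q ^ 3 ≤ n ∧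
  (1 / 16 : ℝ) * (n : ℝ) ^ (4 / 3 : ℝ) ≤ (q : ℝ) ^ 4

/-- HOS (short, assembly). Uses WNM, WGE, PRM. (`ZMod q` with `Fact q.Prime`; `V3 (ZMod q)` has `q^3 ≤ n` elements.) -/
def HOS_stmt : Prop := ∀ n : ℕ, 64 ≤ n → ∃ B : FS n, G8 B ∧ ¬ HasM B ∧
  (1 / 16 : ℝ) * (n : ℝ) ^ (4 / 3 : ℝ) ≤ (B.card : ℝ)

/-! ## Part E: graphs -/

/-- MCN (medium). `M` is connected. PROOF. Every vertex is reachable from `x_00`: the gadget `g` is connected: `u_i - s_(i,j) - w_j` for `(i, j) ≠ (2, 2)`; it contains `x_(xg g)`, `y_g`; `y_g` is adjacent to `cg g`. So all vertices of gadgets and all lines `c` reach some `x_ij`; the gadgets of `x_ij` and `x_ij'` both reach `a_i`; the gadgets of `x_ij` and `x_i'j` both reach `b_j`. -/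
def MCN_stmt : Prop := (GL.Gr RM).Connected

/-- MBA (medium). Bipartite and not acyclic. PROOF. Colour by `Sum.isLeft`. Cycle of length `8`: `u_0, s_00, w_0, s_10, u_1, s_11, w_1, s_01` of a gadget. (`IsAcyclic` for subgraphs: a walk which is a cycle; or `cycleGraph 8 ⊑ Gr RM` and a lemma that `cycleGraph` is not acyclic.) For `cycleGraph 4`, `cycleGraph 6`: explicit colouring, explicit cycle (or `cycleGraph_isCycles`, whatever is in Mathlib). -/
def MBA_stmt : Prop := ∀ i, (F3 i).IsBipartite ∧ ¬ (F3 i).IsAcyclic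

/-- CYG (medium). Cycles in the graph of a host. PROOF. In a copy of a cycle in the bipartite graph `Gr _` the sides alternate. `C4`: two points, two lines. `C6`: three points, three lines. -/
def CYG_stmt : Prop := ∀ (n : ℕ) (B : FS n), G8 B →
  (cycleGraph 4).Free (GL.Gr (fun u v : Fin n => (u, v) ∈ B)) ∧
  (cycleGraph 6).Free (GL.Gr (fun u v : Fin n => (u, v) ∈ B))

/-- EXF (short). The set in the definition of `exF` is bounded by `n^2`. -/
def EXF_stmt : Prop := ∀ (n : ℕ) (b : ℝ), 0 ≤ b →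
  (∀ G : SimpleGraph (Fin n), (∀ i, (F3 i).Free G) → (G.edgeSet.ncard : ℝ) ≤ b) →
  (exF n V3F F3 : ℝ) ≤ b

/-- QCC (medium). Uses EXF, CYG, HOS, `GL.HST_stmt`, `GL.SCL_stmt`. PROOF. `exF n ≤ C n^(17/13)` by `hU`. Let `B` be the host: `|B| ≥ n^(4/3) / 16`. `ex (2n) C4 ≥ |B|` (HST and CYG: `Gr B` has no `C4`), so `ex n C4 ≥ |B| / 6` (SCL); the same for `C6`. Q1 for `RM` gives `|B| ≤ C' ex n (Gr RM)` for large `n`. `n^(4/3) = n^(1/39) n^(17/13)`. -/
def QCC_stmt : Prop := (∃ C : ℝ, ∀ (n : ℕ) (G : SimpleGraph (Fin n)), (∀ i, (F3 i).Free G) →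
    (G.edgeSet.ncard : ℝ) ≤ C * (n : ℝ) ^ (17 / 13 : ℝ)) → GL.Q1 →
  ∃ c : ℝ, 0 < c ∧ ∃ N : ℕ, ∀ n, N ≤ n → ∀ i,
    c * (n : ℝ) ^ (1 / 39 : ℝ) * (exF n V3F F3 : ℝ) ≤ (extremalNumber n (F3 i) : ℝ)

/-- NCO (short). Uses MBA, HOS, CYG, GL.HST, GL.SCL (only to know that `exF n V3F F3 > 0`; alternatively one edge is a graph without `C4`, `C6`, `M`, which have more than one edge). PROOF. Compactness for the family `F3` gives `i` with `ex n (F i) ≤ C exF n` for large `n`; as `exF n ≥ 1` for `n ≥ 2` and `n^(1/39) → ∞`, this contradicts the hypothesis. -/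
def NCO_stmt : Prop := (∃ c : ℝ, 0 < c ∧ ∃ N : ℕ, ∀ n, N ≤ n → ∀ i,
    c * (n : ℝ) ^ (1 / 39 : ℝ) * (exF n V3F F3 : ℝ) ≤ (extremalNumber n (F3 i) : ℝ)) → ¬ Compact

end Pool.Agent.XT
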